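import Pool.Agent.helper43.DHB.SpecB

/-! # Project d2 (MP_5823cb_al), row bPRD (helper16): product bound for tests with private coordinates -/

set_option autoImplicit false

open Filter Topology MeasureTheory
open scoped commutatorElement

namespace Pool.Agent.helper90.DH

open Pool.Agent.helper64.D2

/-- resampling one coordinate. -/
def bPRD_flip {J κ : Type} [DecidableEq J] (x : J) : ((J → κ) × κ) ≃ ((J → κ) × κ) where
  toFun p := (Function.update p.1 x p.2, p.1 x)
  invFun p := (Function.update p.1 x p.2, p.1 x)
  left_inv p := by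
    ext1
    · funext j
      by_cases h : j = x
      · subst h; simp
      · simp [Function.update_of_ne h]
    · simp
  right_inv p := by
    ext1
    · funext j
      by_cases h : j = x
      · subst h; simp
      · simp [Function.update_of_ne h]
    · simp

theorem bPRD_sum {J κ : Type} [Fintype J] [DecidableEq J] [Fintype κ] (x : J) (g : (J → κ) → ℝ) :
    ∑ ω : J → κ, ∑ c : κ, g (Function.update ω x c) = Fintype.card κ * ∑ ω : J → κ, g ω := by
  have h1 : ∑ ω : J → κ, ∑ c : κ, g (Function.update ω x c) = ∑ p : (J → κ) × κ, g (Function.update p.1 x p.2) :=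
    (Fintype.sum_prod_type (fun p : (J → κ) × κ => g (Function.update p.1 x p.2))).symm
  have h2 : ∑ p : (J → κ) × κ, g (Function.update p.1 x p.2) = ∑ p : (J → κ) × κ, g p.1 :=
    Fintype.sum_equiv (bPRD_flip x) _ _ (fun p => rfl)
  rw [h1, h2, Fintype.sum_prod_type]
  simp only [Finset.sum_const, Finset.card_univ, nsmul_eq_mul]
  rw [← Finset.mul_sum]

open Classical in
theorem bPRD_card {Ω : Type} [Fintype Ω] (A : Set Ω) : (Set.ncard A : ℝ) = ∑ ω : Ω, if ω ∈ A then (1 : ℝ) else 0 := by
  rw [Set.ncard_eq_toFinset_card', Finset.sum_boole]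
  congr 2
  ext ω
  simp

theorem bPRD : bPRD_stmt := by
  classical
  intro J κ 𝒯 _ _ _ _ _ T x p hp hind hpr
  have hκ : (0 : ℝ) < Fintype.card κ := by exact_mod_cast Fintype.card_pos
  have hΩ : (0 : ℝ) < Fintype.card (J → κ) := by exact_mod_cast Fintype.card_pos
  have key : ∀ S : Finset 𝒯, (Set.ncard (⋂ t ∈ S, T t) : ℝ) ≤ p ^ S.card * Fintype.card (J → κ) := by
    intro S
    induction S using Finset.induction_on with
    | empty =>
      simp only [Finset.notMem_empty, Set.iInter_of_empty, Set.iInter_univ, Finset.card_empty, pow_zero, one_mul]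
      rw [Set.ncard_univ, Nat.card_eq_fintype_card]
    | insert t S ht ih =>
      set A : Set (J → κ) := ⋂ t' ∈ S, T t' with hA
      have hAinv : ∀ (ω : J → κ) (c : κ), (ω ∈ A ↔ Function.update ω (x t) c ∈ A) := by
        intro ω c
        simp only [hA, Set.mem_iInter]
        refine forall_congr' fun t' => forall_congr' fun ht' => ?_
        exact hind t t' (fun h => ht (h ▸ ht')) ω c
      have hI : (⋂ t' ∈ insert t S, T t') = T t ∩ A := by
        rw [hA, Finset.set_biInter_insert]
      rw [hI, Finset.card_insert_of_notMem ht, pow_succ]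
      have e1 : (Fintype.card κ : ℝ) * (Set.ncard (T t ∩ A) : ℝ) =
          ∑ ω : J → κ, ∑ c : κ, if Function.update ω (x t) c ∈ T t ∩ A then (1 : ℝ) else 0 := by
        rw [bPRD_card, bPRD_sum (x t) (fun ω => if ω ∈ T t ∩ A then (1 : ℝ) else 0)]
        refine congrArg _ (Finset.sum_congr rfl fun ω _ => ?_)
        by_cases h : ω ∈ T t ∩ A
        · rw [if_pos h, if_pos h]
        · rw [if_neg h, if_neg h]
      have e2 : ∀ ω : J → κ, (∑ c : κ, if Function.update ω (x t) c ∈ T t ∩ A then (1 : ℝ) else 0) ≤
          (if ω ∈ A then (1 : ℝ) else 0) * (p * Fintype.card κ) := by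
        intro ω
        by_cases hω : ω ∈ A
        · rw [if_pos hω, one_mul]
          have e3 : (∑ c : κ, if Function.update ω (x t) c ∈ T t ∩ A then (1 : ℝ) else 0) =
              (Set.ncard {c : κ | Function.update ω (x t) c ∈ T t} : ℝ) := by
            rw [bPRD_card]
            refine Finset.sum_congr rfl fun c _ => ?_
            have : (Function.update ω (x t) c ∈ T t ∩ A) ↔ (c ∈ {c : κ | Function.update ω (x t) c ∈ T t}) := by
              constructor
              · exact fun h => h.1
              · exact fun h => ⟨h, (hAinv ω c).1 hω⟩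
            simp only [this]
          rw [e3]
          have e4 := hpr t ω
          unfold bpr at e4
          rwa [div_le_iff₀ hκ] at e4
        · rw [if_neg hω, zero_mul]
          apply le_of_eq
          refine Finset.sum_eq_zero fun c _ => ?_
          rw [if_neg]
          exact fun h => hω ((hAinv ω c).2 h.2)
      have e5 : (Fintype.card κ : ℝ) * (Set.ncard (T t ∩ A) : ℝ) ≤ (Fintype.card κ : ℝ) * (p * (Set.ncard A : ℝ)) := by
        rw [e1]
        refine (Finset.sum_le_sum fun ω _ => e2 ω).trans (le_of_eq ?_)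
        rw [← Finset.sum_mul, ← bPRD_card]
        ring
      have e6 : (Set.ncard (T t ∩ A) : ℝ) ≤ p * (Set.ncard A : ℝ) := le_of_mul_le_mul_left e5 hκ
      calc (Set.ncard (T t ∩ A) : ℝ) ≤ p * (Set.ncard A : ℝ) := e6
        _ ≤ p * (p ^ S.card * Fintype.card (J → κ)) := mul_le_mul_of_nonneg_left ih hp
        _ = p ^ S.card * p * Fintype.card (J → κ) := by ring
  have h := key Finset.univ
  rw [Finset.card_univ] at h
  have hI : (⋂ t ∈ (Finset.univ : Finset 𝒯), T t) = ⋂ t, T t := by simp
  rw [hI] at h
  unfold bpr
  rw [div_le_iff₀ hΩ]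
  exact h

end Pool.Agent.helper90.DH
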